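import Pool.Agent.J4H42.UD.Core
import Pool.Agent.J4H16.UD.Defs
import Pool.Agent.W538.JQ.Rmt

/-!
# Project UD (helper16), job U8
-/

set_option autoImplicit false

namespace Pool.Agent.J4H42.UD

/-- **U8**: a set which is uniformly disconnected in the sense of David and Semmes is surrounded by
annuli of definite modulus. -/
theorem t_UDC : Pool.Agent.J4H16.UD.S_UDC := by
  intro S θ d0 _ hθ hd0 H
  exact udc Pool.Agent.W538.JQ.rmt S θ d0 hθ hd0 H

end Pool.Agent.J4H42.UD
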