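import Mathlib

/-!
# Project UD (helper16), job U8: packing, the Schwarz-Pick lemma and chains
-/

set_option autoImplicit false
set_option linter.all false

open Set Filter Topology Metric
open scoped ComplexConjugate

namespace Pool.Agent.J4H42.UD

/-- Packing: only boundedly many points of a disc are separated. -/
theorem pack (L ρ : ℝ) (hρ : 0 < ρ) : ∃ N : ℕ, ∀ (a : ℂ) (R : ℝ), 0 < R → ∀ z : ℕ → ℂ,
    (∀ i ≤ N, ‖z i - a‖ ≤ L * R) → (∀ i j, i < j → j ≤ N → ρ * R ≤ ‖z i - z j‖) → False := by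
  have hc : TotallyBounded (closedBall (0 : ℂ) L) := (isCompact_closedBall 0 L).totallyBounded
  obtain ⟨T, hT, hcov⟩ := Metric.totallyBounded_iff.1 hc (ρ / 2) (by positivity)
  refine ⟨hT.toFinset.card, ?_⟩
  intro a R hR z h1 h2
  have h3 : ∀ i ∈ Finset.range (hT.toFinset.card + 1), ∃ y ∈ hT.toFinset,
      ‖(z i - a) / R - y‖ < ρ / 2 := by
    intro i hi
    have hi' : i ≤ hT.toFinset.card := by
      rw [Finset.mem_range] at hi
      omega
    have h4 : (z i - a) / R ∈ closedBall (0 : ℂ) L := by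
      rw [mem_closedBall_zero_iff, norm_div, Complex.norm_real, Real.norm_of_nonneg hR.le,
        div_le_iff₀ hR]
      exact h1 i hi'
    have h5 := hcov h4
    rw [mem_iUnion₂] at h5
    obtain ⟨y, hy, hy'⟩ := h5
    refine ⟨y, hT.mem_toFinset.2 hy, ?_⟩
    rwa [mem_ball, dist_eq_norm] at hy'
  choose! f hf hf' using h3
  obtain ⟨i, hi, j, hj, hij, he⟩ := Finset.exists_ne_map_eq_of_card_lt_of_maps_to
    (by rw [Finset.card_range]; exact Nat.lt_succ_self _) (fun i hi => hf i hi)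
  have key : ∀ i j, i < j → i ∈ Finset.range (hT.toFinset.card + 1) →
      j ∈ Finset.range (hT.toFinset.card + 1) → f i = f j → False := by
    intro i j hij hi hj he
    have h6 := hf' i hi
    have h7 := hf' j hj
    rw [he] at h6
    have h8 := h2 i j hij (by rw [Finset.mem_range] at hj; omega)
    have h9 : ‖(z i - z j) / R‖ < ρ := by
      have e : (z i - z j) / R = ((z i - a) / R - f j) - ((z j - a) / R - f j) := by ring
      rw [e]
      refine (norm_sub_le _ _).trans_lt ?_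
      linarith
    rw [norm_div, Complex.norm_real, Real.norm_of_nonneg hR.le, div_lt_iff₀ hR] at h9
    linarith
  rcases lt_or_gt_of_ne hij with h | h
  · exact key i j h hi hj he
  · exact key j i h hj hi he.symm

/-- Schwarz-Pick in the form of Harnack's inequality. -/
theorem harn {f : ℂ → ℂ} {z w : ℂ} {r : ℝ} (hr : 0 < r) (hf : DifferentiableOn ℂ f (ball z r))
    (h1 : ∀ y ∈ ball z r, ‖f y‖ < 1) (hw : ‖w - z‖ ≤ r / 2) :
    (1 - ‖f z‖) / 3 ≤ 1 - ‖f w‖ := by
  obtain ⟨e, he, hew⟩ : ∃ e : ℂ, ‖e‖ = 1 ∧ e * f w = ‖f w‖ := by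
    by_cases h0 : f w = 0
    · exact ⟨1, norm_one, by rw [h0, mul_zero, norm_zero]; rfl⟩
    · have h2 : (‖f w‖ : ℂ) ≠ 0 := by exact_mod_cast (norm_ne_zero_iff.2 h0)
      refine ⟨conj (f w) / ‖f w‖, ?_, ?_⟩
      · rw [norm_div, Complex.norm_real, norm_norm, RCLike.norm_conj,
          div_self (norm_ne_zero_iff.2 h0)]
      · rw [div_mul_eq_mul_div, mul_comm, Complex.mul_conj, Complex.normSq_eq_norm_sq]
        push_cast
        rw [sq, mul_div_assoc, div_self h2, mul_one]
  set h : ℂ → ℂ := fun y => 1 - e * f y with hh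
  have hpos : ∀ y ∈ ball z r, 1 - ‖f y‖ ≤ (h y).re := by
    intro y hy
    have h2 : (e * f y).re ≤ ‖e * f y‖ := Complex.re_le_norm _
    rw [norm_mul, he, one_mul] at h2
    simp only [hh, Complex.sub_re, Complex.one_re]
    linarith
  have hzb : z ∈ ball z r := mem_ball_self hr
  have hwb : w ∈ ball z r := by
    rw [mem_ball, dist_eq_norm]
    linarith
  set α := h z with hα
  have hα0 : 0 < α.re := lt_of_lt_of_le (by linarith [h1 z hzb]) (hpos z hzb)
  have hne : ∀ y ∈ ball z r, h y + conj α ≠ 0 := by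
    intro y hy h0
    have h2 := congrArg Complex.re h0
    rw [Complex.add_re, Complex.conj_re, Complex.zero_re] at h2
    have h3 := hpos y hy
    have h4 := h1 y hy
    linarith
  set G : ℂ → ℂ := fun y => (h y - α) / (h y + conj α) with hG
  have hGz : G z = 0 := by
    simp only [hG, ← hα, sub_self, zero_div]
  have hhd : DifferentiableOn ℂ h (ball z r) := by
    apply DifferentiableOn.const_sub
    exact hf.const_mul e
  have hGd : DifferentiableOn ℂ G (ball z r) :=
    (hhd.sub_const α).div (hhd.add_const (conj α)) hne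
  have hsq : ∀ y : ℂ, ‖h y - α‖ ^ 2 = ((h y).re - α.re) ^ 2 + ((h y).im - α.im) ^ 2 := by
    intro y
    rw [← Complex.normSq_eq_norm_sq, Complex.normSq_apply, Complex.sub_re, Complex.sub_im]
    ring
  have hsq' : ∀ y : ℂ, ‖h y + conj α‖ ^ 2 = ((h y).re + α.re) ^ 2 + ((h y).im - α.im) ^ 2 := by
    intro y
    rw [← Complex.normSq_eq_norm_sq, Complex.normSq_apply, Complex.add_re, Complex.add_im,
      Complex.conj_re, Complex.conj_im]
    ring
  have hmaps : MapsTo G (ball z r) (closedBall (G z) 1) := by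
    intro y hy
    rw [hGz, mem_closedBall_zero_iff]
    simp only [hG]
    rw [norm_div, div_le_one (norm_pos_iff.2 (hne y hy))]
    have h3 := hpos y hy
    have h4 := h1 y hy
    apply le_of_sq_le_sq _ (norm_nonneg _)
    rw [hsq, hsq']
    have h5 : 0 < (h y).re := by linarith
    have h6 : 0 < (h y).re * α.re := mul_pos h5 hα0
    linarith [sq_nonneg ((h y).re), h6, show ((h y).re + α.re) ^ 2 =
      ((h y).re - α.re) ^ 2 + 4 * ((h y).re * α.re) by ring]
  have h2 := Complex.dist_le_div_mul_dist_of_mapsTo_ball hGd hmaps hwb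
  rw [hGz, dist_zero_right, dist_eq_norm] at h2
  have h3 : ‖G w‖ ≤ 1 / 2 := by
    refine h2.trans ?_
    calc 1 / r * ‖w - z‖ ≤ 1 / r * (r / 2) := by gcongr
      _ = 1 / 2 := by field_simp
  simp only [hG] at h3
  rw [norm_div, div_le_iff₀ (norm_pos_iff.2 (hne w hwb))] at h3
  have hwx : h w = ((1 - ‖f w‖ : ℝ) : ℂ) := by
    simp only [hh, hew]
    push_cast
    ring
  set x := 1 - ‖f w‖ with hx
  have hx0 : 0 < x := by
    have := h1 w hwb
    rw [hx]
    linarith
  have h4 : ‖h w - α‖ ^ 2 ≤ (1 / 2 * ‖h w + conj α‖) ^ 2 :=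
    pow_le_pow_left₀ (norm_nonneg _) h3 2
  rw [mul_pow, hsq, hsq', hwx, Complex.ofReal_re, Complex.ofReal_im] at h4
  have h5 : (2 * (x - α.re)) ^ 2 ≤ (x + α.re) ^ 2 := by
    nlinarith [sq_nonneg (0 - α.im)]
  have h6 : 2 * (α.re - x) ≤ x + α.re := by
    have := abs_le_of_sq_le_sq h5 (by linarith)
    have h7 := neg_abs_le (2 * (x - α.re))
    linarith
  have h7 := hpos z hzb
  linarith

/-- Chains: if a function `u > 0` changes at most by a factor 3 on steps of length `< r` inside a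
connected set, the set is in a disc of radius `L R`, and `r ≥ ρ R`, then `u` changes at most by a
bounded factor. -/
theorem chain (L ρ : ℝ) (hρ : 0 < ρ) : ∃ c : ℝ, 0 < c ∧ ∀ (a : ℂ) (R : ℝ) (W : Set ℂ)
    (u : ℂ → ℝ), 0 < R → a ∈ W → IsOpen W → IsPreconnected W → (∀ z ∈ W, ‖z - a‖ ≤ L * R) →
    u a = 1 → (∀ z ∈ W, ∀ w ∈ W, ‖w - z‖ < ρ * R → u z / 3 ≤ u w) → ∀ z ∈ W, c ≤ u z := by
  obtain ⟨N, hN⟩ := pack L ρ hρ
  refine ⟨(1 / 3) ^ (2 * N + 2), by positivity, ?_⟩
  intro a R W u hR ha hW hWc hb hua hst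
  set B : ℕ → Set ℂ := fun j => {z | z ∈ W ∧ (1 / 3 : ℝ) ^ j ≤ u z} with hB
  have hBmono : Monotone B := by
    intro i j hij z hz
    refine ⟨hz.1, le_trans ?_ hz.2⟩
    exact pow_le_pow_of_le_one (by norm_num) (by norm_num) hij
  have hstep : ∀ j, ∀ z ∈ B j, ∀ w ∈ W, ‖w - z‖ < ρ * R → w ∈ B (j + 1) := by
    intro j z hz w hw h
    refine ⟨hw, ?_⟩
    have h1 := hst z hz.1 w hw h
    have h2 := hz.2
    rw [pow_succ]
    linarith
  have hρR : 0 < ρ * R := by positivity
  -- stabilization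
  have hstab : ∀ j, B (j + 1) ⊆ B j → W ⊆ B j := by
    intro j hj
    have hsub : W ⊆ (⋃ z ∈ B j, ball z (ρ * R)) ∪ (⋃ z ∈ W \ B j, ball z (ρ * R)) := by
      intro z hz
      by_cases h : z ∈ B j
      · exact Or.inl (mem_biUnion h (mem_ball_self hρR))
      · exact Or.inr (mem_biUnion (show z ∈ W \ B j from ⟨hz, h⟩) (mem_ball_self hρR))
    have haB : a ∈ B j := by
      refine ⟨ha, ?_⟩
      rw [hua]
      exact pow_le_one₀ (by norm_num) (by norm_num)
    by_contra hcon
    rw [not_subset] at hcon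
    obtain ⟨y, hy, hyB⟩ := hcon
    obtain ⟨w, hw, hw1, hw2⟩ := hWc _ _ (isOpen_biUnion fun _ _ => isOpen_ball)
      (isOpen_biUnion fun _ _ => isOpen_ball) hsub
      ⟨a, ha, mem_biUnion haB (mem_ball_self hρR)⟩
      ⟨y, hy, mem_biUnion (show y ∈ W \ B j from ⟨hy, hyB⟩) (mem_ball_self hρR)⟩
    rw [mem_iUnion₂] at hw1 hw2
    obtain ⟨z, hz, hwz⟩ := hw1
    obtain ⟨z', hz', hwz'⟩ := hw2
    rw [mem_ball, dist_eq_norm] at hwz hwz'
    have h1 := hj (hstep j z hz w hw hwz)
    have h2 := hj (hstep j w h1 z' hz'.1 (by rwa [norm_sub_rev]))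
    exact hz'.2 h2
  have hmain : W ⊆ B (2 * N + 2) := by
    by_contra hcon
    have h1 : ∀ j ≤ 2 * N + 2, ¬ B (j + 1) ⊆ B j := by
      intro j hj h
      exact hcon ((hstab j h).trans (hBmono hj))
    have h2 : ∀ i, ∃ z : ℂ, i ≤ N → z ∈ B (2 * i + 2) ∧ z ∉ B (2 * i + 1) := by
      intro i
      by_cases hi : i ≤ N
      · have h3 := h1 (2 * i + 1) (by omega)
        rw [not_subset] at h3
        obtain ⟨z, hz, hz'⟩ := h3
        exact ⟨z, fun _ => ⟨hz, hz'⟩⟩
      · exact ⟨0, fun h => absurd h hi⟩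
    choose z hz using h2
    refine hN a R hR z (fun i hi => hb _ (hz i hi).1.1) ?_
    intro i j hij hj
    by_contra hlt
    push Not at hlt
    have h3 := (hz i (by omega)).1
    have h4 := hz j hj
    have h5 : z j ∈ B (2 * i + 2 + 1) :=
      hstep _ _ h3 _ h4.1.1 (by rwa [norm_sub_rev])
    exact h4.2 (hBmono (by omega) h5)
  intro z hz
  exact (hmain hz).2

end Pool.Agent.J4H42.UD
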