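import Pool.Agent.J4H42.UD.Fill
import Pool.Agent.J4H42.UD.Pick
import Pool.Agent.W363.JQ.Stm

/-!
# Project UD (helper16), job U8: uniformly disconnected sets are surrounded by annuli
-/

set_option autoImplicit false
set_option linter.all false

open Set Filter Topology Metric

namespace Pool.Agent.J4H42.UD

/-- the points of `S` which are joined to `ball a R` by a chain of balls of radius `t` -/
inductive Rch (S : Set ℂ) (a : ℂ) (R t : ℝ) : ℂ → Prop
  | base (p : ℂ) (hp : p ∈ S) (h : ‖p - a‖ < R + 2 * t) : Rch S a R t p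
  | step (p q : ℂ) (hp : Rch S a R t p) (hq : q ∈ S) (h : ‖q - p‖ < 2 * t) : Rch S a R t q

/-- the union of these balls -/
def WW (S : Set ℂ) (a : ℂ) (R t : ℝ) : Set ℂ := ball a (R + t) ∪ ⋃ p ∈ {p | Rch S a R t p}, ball p t

variable {S : Set ℂ} {a p z w : ℂ} {R t t' θ d0 : ℝ}

theorem Rch.mem (h : Rch S a R t p) : p ∈ S := by
  cases h with
  | base p hp _ => exact hp
  | step p q _ hq _ => exact hq

theorem Rch.mono (htt : t ≤ t') (h : Rch S a R t p) : Rch S a R t' p := by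
  induction h with
  | base p hp h => exact Rch.base p hp (by linarith)
  | step p q _ hq h ih => exact Rch.step p q ih hq (by linarith)

theorem mem_WW : z ∈ WW S a R t ↔ ‖z - a‖ < R + t ∨ ∃ p, Rch S a R t p ∧ ‖z - p‖ < t := by
  unfold WW
  rw [mem_union, mem_iUnion₂, mem_ball, dist_eq_norm]
  constructor
  · rintro (h | ⟨p, hp, h⟩)
    · exact Or.inl h
    · exact Or.inr ⟨p, hp, by rwa [mem_ball, dist_eq_norm] at h⟩
  · rintro (h | ⟨p, hp, h⟩)
    · exact Or.inl h
    · exact Or.inr ⟨p, hp, by rwa [mem_ball, dist_eq_norm]⟩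

theorem WW_open : IsOpen (WW S a R t) :=
  isOpen_ball.union (isOpen_biUnion fun _ _ => isOpen_ball)

theorem mem_center (hR : 0 < R) (ht : 0 < t) : a ∈ WW S a R t :=
  mem_WW.2 (Or.inl (by rw [sub_self, norm_zero]; linarith))

theorem ball_sub_WW (ht : 0 < t) : ball a R ⊆ WW S a R t := by
  intro z hz
  rw [mem_ball, dist_eq_norm] at hz
  exact mem_WW.2 (Or.inl (by linarith))

/-- the neighbourhood -/
theorem WW_thick (hz : z ∈ WW S a R t) (hw : ‖w - z‖ < t' - t) : w ∈ WW S a R t' := by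
  have htt : t ≤ t' := by
    have := norm_nonneg (w - z)
    linarith
  rcases mem_WW.1 hz with h | ⟨p, hp, h⟩
  · refine mem_WW.2 (Or.inl ?_)
    have e : w - a = (w - z) + (z - a) := by ring
    rw [e]
    refine (norm_add_le _ _).trans_lt ?_
    linarith
  · refine mem_WW.2 (Or.inr ⟨p, hp.mono htt, ?_⟩)
    have e : w - p = (w - z) + (z - p) := by ring
    rw [e]
    refine (norm_add_le _ _).trans_lt ?_
    linarith

theorem WW_mono (htt : t < t') : WW S a R t ⊆ WW S a R t' := fun z hz =>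
  WW_thick hz (by rw [sub_self, norm_zero]; linarith)

theorem closure_WW (htt : t < t') : closure (WW S a R t) ⊆ WW S a R t' := by
  intro w hw
  obtain ⟨z, hz, h⟩ := Metric.mem_closure_iff.1 hw (t' - t) (by linarith)
  exact WW_thick hz (by rwa [dist_eq_norm] at h)

theorem WW_disj (hp : p ∈ S) (hn : ¬ Rch S a R t p) : Disjoint (ball p t) (WW S a R t) := by
  rw [disjoint_left]
  intro z hz hz'
  rw [mem_ball, dist_eq_norm] at hz
  apply hn
  rcases mem_WW.1 hz' with h | ⟨q, hq, h⟩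
  · refine Rch.base p hp ?_
    have e : p - a = (z - a) - (z - p) := by ring
    rw [e]
    refine (norm_sub_le _ _).trans_lt ?_
    linarith
  · refine Rch.step q p hq hp ?_
    have e : p - q = (z - q) - (z - p) := by ring
    rw [e]
    refine (norm_sub_le _ _).trans_lt ?_
    linarith

theorem ball_inter {p q : ℂ} {s t : ℝ} (hs : 0 < s) (ht : 0 < t) (h : ‖q - p‖ < s + t) :
    (ball p s ∩ ball q t).Nonempty := by
  obtain ⟨y, h1, h2⟩ := exists_dist_lt_lt (x := p) (z := q) hs ht (by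
    rw [dist_comm, dist_eq_norm]
    linarith)
  exact ⟨y, by rwa [mem_ball, dist_comm], by rwa [mem_ball]⟩

theorem WW_conn (hR : 0 < R) (ht : 0 < t) : IsPreconnected (WW S a R t) := by
  have hC : ∀ p, Rch S a R t p → ∃ C ⊆ WW S a R t, a ∈ C ∧ ball p t ⊆ C ∧ IsPreconnected C := by
    intro p hp
    have hb : ball a (R + t) ⊆ WW S a R t := subset_union_left
    have hbp : ∀ p, Rch S a R t p → ball p t ⊆ WW S a R t := by
      intro p hp z hz
      exact mem_WW.2 (Or.inr ⟨p, hp, by rwa [mem_ball, dist_eq_norm] at hz⟩)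
    induction hp with
    | base p hp h =>
      refine ⟨ball a (R + t) ∪ ball p t, union_subset hb (hbp p (Rch.base p hp h)), ?_,
        subset_union_right, ?_⟩
      · exact Or.inl (mem_ball_self (by linarith))
      · exact IsPreconnected.union' (ball_inter (by linarith) ht (by linarith))
          (convex_ball _ _).isPreconnected (convex_ball _ _).isPreconnected
    | step p q hp hq h ih =>
      obtain ⟨C, h1, h2, h3, h4⟩ := ih
      refine ⟨C ∪ ball q t, union_subset h1 (hbp q (Rch.step p q hp hq h)), Or.inl h2,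
        subset_union_right, ?_⟩
      have h5 : (ball p t ∩ ball q t).Nonempty := ball_inter ht ht (by linarith)
      exact IsPreconnected.union' (h5.mono (inter_subset_inter_left _ h3)) h4
        (convex_ball _ _).isPreconnected
  apply isPreconnected_of_forall a
  intro z hz
  rcases mem_WW.1 hz with h | ⟨p, hp, h⟩
  · refine ⟨ball a (R + t), subset_union_left, mem_ball_self (by linarith), ?_,
      (convex_ball _ _).isPreconnected⟩
    rwa [mem_ball, dist_eq_norm]
  · obtain ⟨C, h1, h2, h3, h4⟩ := hC p hp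
    exact ⟨C, h1, h2, h3 (by rwa [mem_ball, dist_eq_norm]), h4⟩

/-- the condition of David and Semmes -/
def NoCh (S : Set ℂ) (θ d0 : ℝ) : Prop :=
  ∀ (k : ℕ) (p : ℕ → ℂ), (∀ i ≤ k, p i ∈ S) → ‖p k - p 0‖ ≤ d0 →
    (∀ i < k, ‖p (i + 1) - p i‖ ≤ θ * ‖p k - p 0‖) → p k = p 0

theorem Rch_bound (H : NoCh S θ d0) (hθ : 0 < θ) (hR : 0 < R) (h1 : 2 * t ≤ θ * R)
    (h2 : R + 2 * t ≤ d0) {q : ℂ} (hq : Rch S a R t q) : ∃ (k : ℕ) (c : ℕ → ℂ),
      (∀ i ≤ k, c i ∈ S) ∧ (∀ i < k, ‖c (i + 1) - c i‖ < 2 * t) ∧ c k = q ∧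
      ‖c 0 - a‖ < R + 2 * t ∧ ‖q - c 0‖ < R := by
  induction hq with
  | base p hp h =>
    refine ⟨0, fun _ => p, fun _ _ => hp, fun i hi => absurd hi (Nat.not_lt_zero i), rfl, h, ?_⟩
    rw [sub_self, norm_zero]
    exact hR
  | step p q hp hq h ih =>
    obtain ⟨k, c, g1, g2, g3, g4, g5⟩ := ih
    obtain ⟨c', hc'⟩ : ∃ c' : ℕ → ℂ, c' = fun i => if i ≤ k then c i else q := ⟨_, rfl⟩
    have e1 : ∀ i ≤ k, c' i = c i := fun i hi => by rw [hc']; exact if_pos hi
    have e2 : c' (k + 1) = q := by rw [hc']; exact if_neg (by omega)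
    have f1 : ∀ i ≤ k + 1, c' i ∈ S := by
      intro i hi
      rcases Nat.lt_or_ge k i with h3 | h3
      · rw [show i = k + 1 by omega, e2]
        exact hq
      · rw [e1 i h3]
        exact g1 i h3
    have f2 : ∀ i < k + 1, ‖c' (i + 1) - c' i‖ < 2 * t := by
      intro i hi
      rcases Nat.lt_or_ge i k with h3 | h3
      · rw [e1 i h3.le, e1 (i + 1) h3]
        exact g2 i h3
      · rw [show i = k by omega, e2, e1 k le_rfl, g3]
        exact h
    refine ⟨k + 1, c', f1, f2, e2, ?_, ?_⟩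
    · rw [e1 0 (Nat.zero_le _)]
      exact g4
    · by_contra hcon
      rw [e1 0 (Nat.zero_le _)] at hcon
      push Not at hcon
      have h3 : ‖q - c 0‖ ≤ d0 := by
        have e : q - c 0 = (q - p) + (p - c 0) := by ring
        rw [e]
        refine (norm_add_le _ _).trans ?_
        linarith
      have h4 := H (k + 1) c' f1 (by rw [e2, e1 0 (Nat.zero_le _)]; exact h3) (by
        intro i hi
        rw [e2, e1 0 (Nat.zero_le _)]
        have h5 : θ * R ≤ θ * ‖q - c 0‖ := mul_le_mul_of_nonneg_left hcon hθ.le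
        have h6 := f2 i hi
        linarith)
      rw [e2, e1 0 (Nat.zero_le _)] at h4
      rw [h4, sub_self, norm_zero] at hcon
      linarith

theorem WW_sub (H : NoCh S θ d0) (hθ : 0 < θ) (hR : 0 < R) (ht : 0 < t) (h1 : 2 * t ≤ θ * R)
    (h2 : R + 2 * t ≤ d0) (h3 : 2 * t ≤ R) : WW S a R t ⊆ ball a (4 * R) := by
  intro z hz
  rw [mem_ball, dist_eq_norm]
  rcases mem_WW.1 hz with h | ⟨p, hp, h⟩
  · linarith
  · obtain ⟨k, c, -, -, -, g4, g5⟩ := Rch_bound H hθ hR h1 h2 hp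
    have e : z - a = (z - p) + ((p - c 0) + (c 0 - a)) := by ring
    rw [e]
    have h4 := norm_add_le (z - p) ((p - c 0) + (c 0 - a))
    have h5 := norm_add_le (p - c 0) (c 0 - a)
    linarith

/-- **U8.** -/
theorem udc (hrmt : Pool.Agent.W363.JQ.S_rmt) (S : Set ℂ) (θ d0 : ℝ) (hθ : 0 < θ) (hd0 : 0 < d0)
    (H : NoCh S θ d0) : ∃ ε R1 : ℝ, 0 < ε ∧ ε < 1 ∧ 0 < R1 ∧ ∀ a ∈ S, ∀ R : ℝ, 0 < R → R ≤ R1 →
      ∃ φ : ℂ → ℂ, (DifferentiableOn ℂ φ (ball 0 1) ∧ InjOn φ (ball 0 1)) ∧ φ 0 = a ∧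
        ball a R ⊆ φ '' ball 0 1 ∧ φ '' ball 0 1 ⊆ ball a (R / ε) ∧
        ∀ ζ : ℂ, 1 - ε < ‖ζ‖ → ‖ζ‖ < 1 → φ ζ ∉ S := by
  obtain ⟨θ₁, hθ₁⟩ : ∃ θ₁ : ℝ, θ₁ = min θ 1 := ⟨_, rfl⟩
  have hθ₁0 : 0 < θ₁ := by rw [hθ₁]; exact lt_min hθ one_pos
  have hθ₁θ : θ₁ ≤ θ := by rw [hθ₁]; exact min_le_left _ _
  have hθ₁1 : θ₁ ≤ 1 := by rw [hθ₁]; exact min_le_right _ _
  obtain ⟨N, hN⟩ := pack 4 (θ₁ / 4) (by positivity)
  obtain ⟨K, hK⟩ : ∃ K : ℕ, K = N + 1 := ⟨_, rfl⟩
  have hK0 : (0 : ℝ) < K := by rw [hK]; positivity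
  obtain ⟨c, hc, hchain⟩ := chain 4 (θ₁ / (8 * K)) (by positivity)
  refine ⟨min (1 / 4) c, d0 / 2, lt_min (by norm_num) hc,
    (min_le_left _ _).trans_lt (by norm_num), by positivity, ?_⟩
  intro a ha R hR hR1
  obtain ⟨s, hs⟩ : ∃ s : ℝ, s = θ₁ / 4 * R := ⟨_, rfl⟩
  have hs0 : 0 < s := by rw [hs]; positivity
  obtain ⟨r, hr⟩ : ∃ r : ℝ, r = s / K := ⟨_, rfl⟩
  have hr0 : 0 < r := by rw [hr]; positivity
  have hrK : K * r = s := by rw [hr]; field_simp
  obtain ⟨τ, hτ⟩ : ∃ τ : ℕ → ℝ, ∀ k, τ k = s + k * r := ⟨fun k => s + k * r, fun _ => rfl⟩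
  have hτ1 : ∀ k, s ≤ τ k := by
    intro k
    rw [hτ]
    have : 0 ≤ (k : ℝ) * r := by positivity
    linarith
  have hτ0 : ∀ k, 0 < τ k := fun k => lt_of_lt_of_le hs0 (hτ1 k)
  have hτ2 : ∀ k ≤ K, 2 * τ k ≤ θ₁ * R := by
    intro k hk
    rw [hτ]
    have h1 : (k : ℝ) * r ≤ K * r := by
      gcongr
    rw [hrK] at h1
    rw [hs] at h1 ⊢
    linarith
  have hτs : ∀ k, τ (k + 1) - τ k = r := by
    intro k
    rw [hτ, hτ]
    push_cast
    ring
  have hτm : ∀ i j, i < j → τ i < τ j := by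
    intro i j hij
    rw [hτ, hτ]
    have : (i : ℝ) * r < j * r := by gcongr
    linarith
  have hθR : θ₁ * R ≤ θ * R := by gcongr
  have hθR1 : θ₁ * R ≤ 1 * R := by gcongr
  have hsub4 : ∀ k ≤ K, WW S a R (τ k) ⊆ ball a (4 * R) := by
    intro k hk
    have h1 := hτ2 k hk
    exact WW_sub H hθ hR (hτ0 k) (by linarith) (by linarith) (by linarith)
  obtain ⟨b, hb⟩ : ∃ b : ℂ, b ∉ ball a (4 * R) := by
    refine ⟨a + (5 * R : ℝ), ?_⟩
    rw [mem_ball, dist_eq_norm, add_sub_cancel_left, Complex.norm_real,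
      Real.norm_of_nonneg (by positivity)]
    linarith
  obtain ⟨F, hF⟩ : ∃ F : ℕ → Set ℂ, ∀ k, F k = fill (WW S a R (τ k)) b := ⟨_, fun _ => rfl⟩
  have hFsub : ∀ k ≤ K, F k ⊆ ball a (4 * R) := by
    intro k hk
    rw [hF]
    exact fill_sub (by positivity) (hsub4 k hk) hb
  have hFmono : ∀ i j, i < j → F i ⊆ F j := by
    intro i j hij
    rw [hF, hF]
    exact fill_mono (WW_mono (hτm i j hij))
  -- the pigeonhole
  obtain ⟨k, hk, hSk⟩ : ∃ k < K, ∀ p ∈ S, p ∈ F (k + 1) → p ∈ F k := by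
    by_contra hcon
    push Not at hcon
    have h1 : ∀ k, ∃ p : ℂ, k < K → p ∈ S ∧ p ∈ F (k + 1) ∧ p ∉ F k := by
      intro k
      by_cases hk : k < K
      · obtain ⟨p, hp⟩ := hcon k hk
        exact ⟨p, fun _ => hp⟩
      · exact ⟨0, fun h => absurd h hk⟩
    choose p hp using h1
    refine hN a R hR p ?_ ?_
    · intro i hi
      have h2 := hFsub (i + 1) (by omega) (hp i (by omega)).2.1
      rw [mem_ball, dist_eq_norm] at h2
      exact h2.le
    · intro i j hij hj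
      by_contra hlt
      push Not at hlt
      obtain ⟨h2, -, h3⟩ := hp j (by omega)
      have h4 : p i ∈ F j := by
        rcases Nat.lt_or_ge (i + 1) j with h5 | h5
        · exact hFmono _ _ h5 (hp i (by omega)).2.1
        · rw [show j = i + 1 by omega]
          exact (hp i (by omega)).2.1
      rw [hF] at h3 h4
      have h5 : ¬ Rch S a R (τ j) (p j) := by
        intro h6
        exact h3 (sub_fill (mem_WW.2 (Or.inr ⟨p j, h6, by
          rw [sub_self, norm_zero]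
          exact hτ0 j⟩)))
      have h6 := ball_disj_fill h3 (WW_disj h2 h5)
      refine disjoint_left.1 h6 ?_ h4
      rw [mem_ball, dist_eq_norm]
      have := hτ1 j
      rw [← hs] at hlt
      linarith
  -- the Riemann map
  have hWne : (WW S a R (τ (k + 1))).Nonempty := ⟨a, mem_center hR (hτ0 _)⟩
  have haΩ : a ∈ F (k + 1) := by
    rw [hF]
    exact sub_fill (mem_center hR (hτ0 _))
  have hΩo : IsOpen (F (k + 1)) := by
    rw [hF]
    exact fill_open WW_open
  have hΩc : IsConnected (F (k + 1)) := by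
    refine ⟨⟨a, haΩ⟩, ?_⟩
    rw [hF]
    exact fill_conn WW_open (WW_conn hR (hτ0 _)) hWne (by positivity) (hsub4 (k + 1) (by omega)) hb
  have hΩb : Bornology.IsBounded (F (k + 1)) := isBounded_ball.subset (hFsub (k + 1) (by omega))
  have hΩcc : IsConnected (F (k + 1))ᶜ := by
    rw [hF]
    exact fill_compl_conn fun h => hb (hsub4 (k + 1) (by omega) h)
  obtain ⟨ψ, χ, hψd, hχd, hψa, hψ, hχ⟩ := hrmt (F (k + 1)) a hΩo hΩc hΩb hΩcc haΩ
  have himg : χ '' ball 0 1 = F (k + 1) := by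
    ext z
    constructor
    · rintro ⟨w, hw, rfl⟩
      exact (hχ w hw).1
    · intro hz
      exact ⟨ψ z, (hψ z hz).1, (hψ z hz).2⟩
  have hχ0 : χ 0 = a := by
    have := (hψ a haΩ).2
    rwa [hψa] at this
  have hnorm : ∀ z ∈ F (k + 1), ‖ψ z‖ < 1 := by
    intro z hz
    have := (hψ z hz).1
    rwa [mem_ball_zero_iff] at this
  -- the bound on `WW`
  have hWΩ : WW S a R (τ (k + 1)) ⊆ F (k + 1) := by
    rw [hF]
    exact sub_fill
  have hbd : ∀ z ∈ WW S a R (τ k), c ≤ 1 - ‖ψ z‖ := by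
    refine hchain a R (WW S a R (τ k)) (fun z => 1 - ‖ψ z‖) hR (mem_center hR (hτ0 _)) WW_open
      (WW_conn hR (hτ0 _)) ?_ ?_ ?_
    · intro z hz
      have := hsub4 k hk.le hz
      rw [mem_ball, dist_eq_norm] at this
      exact this.le
    · show 1 - ‖ψ a‖ = 1
      rw [hψa, norm_zero, sub_zero]
    · intro z hz w hw hwz
      have hzr : ball z r ⊆ F (k + 1) := by
        intro y hy
        rw [mem_ball, dist_eq_norm] at hy
        exact hWΩ (WW_thick hz (by rw [hτs]; exact hy))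
      refine harn hr0 (hψd.mono hzr) (fun y hy => hnorm y (hzr hy)) ?_
      refine hwz.le.trans (le_of_eq ?_)
      rw [hr, hs]
      field_simp
      ring
  have hclW : closure (WW S a R (τ k)) ⊆ F (k + 1) :=
    (closure_WW (hτm k (k + 1) (Nat.lt_succ_self k))).trans hWΩ
  have hclF : closure (F k) ⊆ F (k + 1) := by
    rw [hF k]
    refine closure_fill.trans (union_subset ?_ hclW)
    rw [← hF]
    exact hFmono _ _ (Nat.lt_succ_self k)
  have hbF : ∀ z ∈ F k, ‖ψ z‖ ≤ 1 - c := by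
    intro z hz
    refine Complex.norm_le_of_forall_mem_frontier_norm_le
      (isBounded_ball.subset (hFsub k hk.le)) (hψd.mono hclF).diffContOnCl ?_ (subset_closure hz)
    intro y hy
    have h1 : y ∈ closure (WW S a R (τ k)) := by
      rw [hF] at hy
      exact frontier_fill WW_open hy
    have h2 : ContinuousWithinAt ψ (WW S a R (τ k)) y :=
      ((hψd.continuousOn.continuousAt (hΩo.mem_nhds (hclW h1))).continuousWithinAt)
    have h3 := h2.mem_closure_image h1
    have h4 : closure (ψ '' WW S a R (τ k)) ⊆ closedBall 0 (1 - c) := by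
      apply closure_minimal _ isClosed_closedBall
      rintro _ ⟨x, hx, rfl⟩
      rw [mem_closedBall_zero_iff]
      have := hbd x hx
      linarith
    have := h4 h3
    rwa [mem_closedBall_zero_iff] at this
  refine ⟨χ, ⟨hχd, ?_⟩, hχ0, ?_, ?_, ?_⟩
  · intro x hx y hy hxy
    rw [← (hχ x hx).2, ← (hχ y hy).2, hxy]
  · rw [himg]
    exact (ball_sub_WW (hτ0 _)).trans hWΩ
  · rw [himg]
    refine (hFsub (k + 1) (by omega)).trans (ball_subset_ball ?_)
    rw [le_div_iff₀ (lt_min (by norm_num) hc)]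
    have : min (1 / 4) c ≤ 1 / 4 := min_le_left _ _
    calc 4 * R * min (1 / 4) c ≤ 4 * R * (1 / 4) := by gcongr
      _ = R := by ring
  · intro ζ h1 h2 h3
    have hζ : ζ ∈ ball (0 : ℂ) 1 := by rwa [mem_ball_zero_iff]
    have h4 := hbF _ (hSk _ h3 (hχ ζ hζ).1)
    rw [(hχ ζ hζ).2] at h4
    have : min (1 / 4) c ≤ c := min_le_right _ _
    linarith

end Pool.Agent.J4H42.UD
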