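import Mathlib

/-!
# Project UD (helper16), job U8: the filling of a bounded open connected set in the plane
-/

set_option autoImplicit false
set_option linter.all false

open Set Filter Topology Metric

namespace Pool.Agent.J4H42.UD

/-- The filling of `W` with respect to a point `b` far away: the complement of the component of
`Wᶜ` which contains `b`. -/
def fill (W : Set ℂ) (b : ℂ) : Set ℂ := (connectedComponentIn Wᶜ b)ᶜ

variable {W W' : Set ℂ} {a b p : ℂ} {ρ t : ℝ}

theorem sub_fill : W ⊆ fill W b := by
  intro z hz h
  exact connectedComponentIn_subset _ _ h hz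

theorem fill_mono (h : W ⊆ W') : fill W b ⊆ fill W' b :=
  compl_subset_compl.2 (connectedComponentIn_mono b (compl_subset_compl.2 h))

theorem compl_ball_conn (a : ℂ) (hρ : 0 < ρ) : IsPreconnected (ball a ρ)ᶜ := by
  have h1 : IsPreconnected (Ici ρ ×ˢ sphere (0 : ℂ) 1) :=
    isPreconnected_Ici.prod (isPreconnected_sphere
      (Complex.rank_real_complex ▸ Nat.one_lt_ofNat) _ _)
  have h2 : (ball a ρ)ᶜ = (fun q : ℝ × ℂ => a + q.1 * q.2) '' (Ici ρ ×ˢ sphere (0 : ℂ) 1) := by
    ext z
    simp only [mem_compl_iff, mem_ball, dist_eq_norm, not_lt, mem_image, mem_prod, mem_Ici,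
      mem_sphere_zero_iff_norm, Prod.exists]
    constructor
    · intro h
      have h3 : ‖z - a‖ ≠ 0 := (lt_of_lt_of_le hρ h).ne'
      refine ⟨‖z - a‖, (z - a) / ‖z - a‖, ⟨h, ?_⟩, ?_⟩
      · rw [norm_div, Complex.norm_real, norm_norm, div_self h3]
      · rw [mul_div_cancel₀]
        · ring
        · exact_mod_cast h3
    · rintro ⟨s, u, ⟨hs, hu⟩, rfl⟩
      rw [add_sub_cancel_left, norm_mul, hu, mul_one, Complex.norm_real]
      exact hs.trans (le_abs_self s)
  rw [h2]
  exact h1.image _ (by fun_prop)

theorem fill_sub (hρ : 0 < ρ) (hW : W ⊆ ball a ρ) (hb : b ∉ ball a ρ) : fill W b ⊆ ball a ρ := by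
  have h1 : (ball a ρ)ᶜ ⊆ connectedComponentIn Wᶜ b :=
    (compl_ball_conn a hρ).subset_connectedComponentIn hb (compl_subset_compl.2 hW)
  exact compl_subset_comm.1 h1

theorem comp_closed (hW : IsOpen W) : IsClosed (connectedComponentIn Wᶜ b) := by
  by_cases hb : b ∈ Wᶜ
  · have h1 : closure (connectedComponentIn Wᶜ b) ⊆ connectedComponentIn Wᶜ b :=
      isPreconnected_connectedComponentIn.closure.subset_connectedComponentIn
        (subset_closure (mem_connectedComponentIn hb))
        (closure_minimal (connectedComponentIn_subset _ _) hW.isClosed_compl)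
    exact isClosed_of_closure_subset h1
  · rw [connectedComponentIn_eq_empty hb]
    exact isClosed_empty

theorem fill_open (hW : IsOpen W) : IsOpen (fill W b) := (comp_closed hW).isOpen_compl

theorem fill_compl_conn (hb : b ∉ W) : IsConnected (fill W b)ᶜ := by
  unfold fill
  rw [compl_compl]
  exact isConnected_connectedComponentIn_iff.2 hb

/-- A ball disjoint from `W` whose centre is not in the filling is disjoint from the filling. -/
theorem ball_disj_fill (hp : p ∉ fill W b) (hd : Disjoint (ball p t) W) :
    Disjoint (ball p t) (fill W b) := by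
  rcases le_or_gt t 0 with ht | ht
  · rw [ball_eq_empty.2 ht]
    exact disjoint_bot_left
  have hp' : p ∈ connectedComponentIn Wᶜ b := by
    by_contra h
    exact hp h
  have h1 : ball p t ⊆ connectedComponentIn Wᶜ b := by
    have h2 : ball p t ⊆ connectedComponentIn Wᶜ p :=
      (convex_ball p t).isPreconnected.subset_connectedComponentIn (mem_ball_self ht)
        (disjoint_left.1 hd)
    rwa [← connectedComponentIn_eq hp'] at h2
  exact disjoint_left.2 fun z hz hz' => hz' (h1 hz)

theorem closure_fill : closure (fill W b) ⊆ fill W b ∪ closure W := by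
  intro z hz
  by_contra hcon
  rw [mem_union, not_or] at hcon
  obtain ⟨h1, h2⟩ := hcon
  rw [Metric.mem_closure_iff] at h2
  push Not at h2
  obtain ⟨e, he, h3⟩ := h2
  have h4 : Disjoint (ball z e) (fill W b) := by
    apply ball_disj_fill h1
    rw [disjoint_left]
    intro y hy hyW
    have := h3 y hyW
    rw [mem_ball, dist_comm] at hy
    linarith
  obtain ⟨y, hy, hy'⟩ := Metric.mem_closure_iff.1 hz e he
  exact disjoint_left.1 h4 (by rwa [mem_ball, dist_comm]) hy

theorem frontier_fill (hW : IsOpen W) : frontier (fill W b) ⊆ closure W := by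
  intro z hz
  rw [(fill_open hW).frontier_eq] at hz
  exact (closure_fill hz.1).resolve_left hz.2

theorem fill_conn (hW : IsOpen W) (hc : IsPreconnected W) (hne : W.Nonempty) (hρ : 0 < ρ)
    (hWb : W ⊆ ball a ρ) (hb : b ∉ ball a ρ) : IsPreconnected (fill W b) := by
  -- the main claim
  have key : ∀ u v : Set ℂ, IsOpen u → IsOpen v → fill W b ⊆ u ∪ v → fill W b ∩ (u ∩ v) = ∅ →
      W ⊆ u → fill W b ⊆ u := by
    intro u v hu hv huv hd hWu
    set X := connectedComponentIn Wᶜ b with hX
    have hFX : fill W b = Xᶜ := rfl
    set O := fill W b ∩ v with hO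
    by_contra hcon
    rw [not_subset] at hcon
    obtain ⟨z₀, hz₀, hz₀u⟩ := hcon
    have hz₀O : z₀ ∈ O := ⟨hz₀, (huv hz₀).resolve_left hz₀u⟩
    have hOW : ∀ z ∈ O, z ∉ W := by
      intro z hz hzW
      have : z ∈ fill W b ∩ (u ∩ v) := ⟨hz.1, hWu hzW, hz.2⟩
      rw [hd] at this
      exact this
    have hOo : IsOpen O := (fill_open hW).inter hv
    have hcl : IsClosed (X ∪ O) := by
      have e : (X ∪ O)ᶜ = fill W b ∩ u := by
        ext z
        rw [mem_compl_iff, mem_union, not_or]
        constructor
        · rintro ⟨h1, h2⟩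
          have h3 : z ∈ fill W b := h1
          refine ⟨h3, (huv h3).resolve_right fun h4 => h2 ⟨h3, h4⟩⟩
        · rintro ⟨h1, h2⟩
          refine ⟨h1, fun h3 => ?_⟩
          have : z ∈ fill W b ∩ (u ∩ v) := ⟨h1, h2, h3.2⟩
          rw [hd] at this
          exact this
      rw [← isOpen_compl_iff, e]
      exact (fill_open hW).inter hu
    have hbX : b ∈ X := mem_connectedComponentIn (fun h => hb (hWb h))
    have hpre : IsPreconnected (X ∪ O) := by
      rw [isPreconnected_closed_iff]
      intro s s' hs hs' hss' h1 h2
      have hXc : IsPreconnected X := isPreconnected_connectedComponentIn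
      rw [isPreconnected_closed_iff] at hXc
      by_cases hXs : (X ∩ s).Nonempty
      · by_cases hXs' : (X ∩ s').Nonempty
        · obtain ⟨z, hz, hz'⟩ := hXc s s' hs hs' (subset_union_left.trans hss') hXs hXs'
          exact ⟨z, Or.inl hz, hz'⟩
        · by_contra hemp
          rw [not_nonempty_iff_eq_empty] at hemp
          have hE : (X ∪ O) ∩ s' = O \ s := by
            ext z
            constructor
            · rintro ⟨h3, h4⟩
              have h5 : z ∈ O := by
                rcases h3 with h3 | h3
                · exact absurd ⟨z, h3, h4⟩ hXs'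
                · exact h3
              refine ⟨h5, fun h6 => ?_⟩
              have : z ∈ (X ∪ O) ∩ (s ∩ s') := ⟨Or.inr h5, h6, h4⟩
              rw [hemp] at this
              exact this
            · rintro ⟨h3, h4⟩
              exact ⟨Or.inr h3, (hss' (Or.inr h3)).resolve_left h4⟩
          have hclopen : IsClopen ((X ∪ O) ∩ s') :=
            ⟨hcl.inter hs', by rw [hE]; exact hOo.sdiff hs⟩
          rcases isClopen_iff.1 hclopen with h3 | h3
          · rw [h3] at h2
            exact not_nonempty_empty h2
          · rw [hE] at h3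
            obtain ⟨w, hw⟩ := hne
            have : w ∈ O \ s := by rw [h3]; trivial
            exact hOW w this.1 hw
      · have hXs' : (X ∩ s').Nonempty := by
          refine ⟨b, hbX, (hss' (Or.inl hbX)).resolve_left fun h3 => hXs ⟨b, hbX, h3⟩⟩
        by_contra hemp
        rw [not_nonempty_iff_eq_empty] at hemp
        have hE : (X ∪ O) ∩ s = O \ s' := by
          ext z
          constructor
          · rintro ⟨h3, h4⟩
            have h5 : z ∈ O := by
              rcases h3 with h3 | h3
              · exact absurd ⟨z, h3, h4⟩ hXs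
              · exact h3
            refine ⟨h5, fun h6 => ?_⟩
            have : z ∈ (X ∪ O) ∩ (s ∩ s') := ⟨Or.inr h5, h4, h6⟩
            rw [hemp] at this
            exact this
          · rintro ⟨h3, h4⟩
            exact ⟨Or.inr h3, (hss' (Or.inr h3)).resolve_right h4⟩
        have hclopen : IsClopen ((X ∪ O) ∩ s) :=
          ⟨hcl.inter hs, by rw [hE]; exact hOo.sdiff hs'⟩
        rcases isClopen_iff.1 hclopen with h3 | h3
        · rw [h3] at h1
          exact not_nonempty_empty h1
        · rw [hE] at h3
          obtain ⟨w, hw⟩ := hne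
          have : w ∈ O \ s' := by rw [h3]; trivial
          exact hOW w this.1 hw
    have hsub : X ∪ O ⊆ X := by
      refine hpre.subset_connectedComponentIn (Or.inl hbX) ?_
      rintro z (hz | hz)
      · exact connectedComponentIn_subset _ _ hz
      · exact hOW z hz
    exact hz₀ (hsub (Or.inr hz₀O))
  rw [isPreconnected_iff_subset_of_disjoint]
  intro u v hu hv huv hd
  have h1 := isPreconnected_iff_subset_of_disjoint.1 hc u v hu hv (sub_fill.trans huv) (by
    rw [← subset_empty_iff, ← hd]
    exact inter_subset_inter_left _ sub_fill)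
  rcases h1 with h1 | h1
  · exact Or.inl (key u v hu hv huv hd h1)
  · right
    exact key v u hv hu (by rwa [union_comm]) (by rwa [inter_comm v u]) h1

end Pool.Agent.J4H42.UD
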